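import Pool.Agent.H917R2.HS.Stubs
import Pool.Agent.H563R5.HO.T3

/-!
ROOM HS (helper563): local positivity of the canonical curvature polynomial `HopfG.HS.PS`
(helper917) in the slices `Z₊`, `Z₋`, uniformly in a compact family of data.
-/

set_option autoImplicit false
set_option linter.unusedSectionVars false

open Set Filter
open scoped Topology

noncomputable section

namespace HopfG.HS.CL

open HopfPP HopfG HopfG.Eqv HopfG.HS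
open H563H (Bdd Approx approxRing evF evC contT3 evT T3)

/-- `1 + μ B` -/
def WBm (μ : ℝ) (B : Fin 3 → V ℝ) : Fin 3 → V ℝ := fun i j => I3 i j + μ * B i j

/-- a continuous compact family of data `(B₁, B₂, A, v)` -/
structure Fam (X : Type) [TopologicalSpace X] where
  /-- body matrix: `W = 1 + μ B₁` -/
  B1 : X → Fin 3 → V ℝ
  /-- space matrix: `W' = 1 + μ B₂` -/
  B2 : X → Fin 3 → V ℝ
  /-- quadratic term -/
  A : X → Fin 3 → V ℝ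
  /-- direction of the twist -/
  v : X → Q4 ℝ
  cB1 : Continuous B1
  cB2 : Continuous B2
  cA : Continuous A
  cv : Continuous v
  s1 : ∀ x, Sym (B1 x)
  s2 : ∀ x, Sym (B2 x)

/-- the point of the slice: `false` is `Z₊`, `true` is `Z₋` -/
def gX (M : Bool) (c s a b : ℝ) : Q4 ℝ := match M with
  | true => ![a, b, Real.sqrt (1 - a ^ 2 - b ^ 2), 0]
  | false => ![c * Real.sqrt (1 - a ^ 2 - b ^ 2), s * Real.sqrt (1 - a ^ 2 - b ^ 2), a, b]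

/-- the base value of `Γ` -/
def G0 (M : Bool) (W Wp : Fin 3 → V ℝ) (c s : ℝ) : V6 ℝ := match M with
  | true => G0M W Wp
  | false => G0P W Wp c s

/-- the curvature polynomial in the slice; `n = (o, o', r₂, r₃, t₂, t₃, m₂, m₃, g, h)` -/
def PX (M : Bool) (D : Dat ℝ) (c s : ℝ) (n : Fin 14 → ℝ) : ℝ :=
  PS D (gX M c s (n 0) (n 1)) (![1, 0, 0], ![0, n 2, n 3]) (![0, n 4, n 5], ![1, n 6, n 7])
    (G0 M D.W D.Wp c s + (![n 8, n 9, n 10], ![n 11, n 12, n 13]))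

/-- the truncated series -/
def serX (M : Bool) (W Wp A : Fin 3 → V ℝ) (v : Q4 ℝ) (e l c s : ℝ) (n : Fin 14 → ℝ) : T3 ℝ :=
  match M with
  | true => PSM W Wp A v e l (n 0) (n 1) (n 2) (n 3) (n 4) (n 5) (n 6) (n 7) ![n 8, n 9, n 10]
      ![n 11, n 12, n 13]
  | false => PSP W Wp A v e l c s (n 0) (n 1) (n 2) (n 3) (n 4) (n 5) (n 6) (n 7)
      ![n 8, n 9, n 10] ![n 11, n 12, n 13]

/-- the second derivative of the quadratic term -/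
def xq (M : Bool) (W Wp A : Fin 3 → V ℝ) : ℝ := match M with
  | true => x2s W Wp A ![1, 0, 0] ![1, 0, 0]
  | false => x2b W Wp A ![1, 0, 0] ![1, 0, 0]

theorem xq_WB (M : Bool) (μ : ℝ) (B1 B2 A : Fin 3 → V ℝ) :
    xq M (WBm μ B1) (WBm μ B2) A = μ ^ 2 * xq M B1 B2 A := by
  cases M
  · simp [xq, x2b, fX, fXX, cx, dt, mv, WBm, I3]
    ring
  · simp [xq, x2s, fX, fXX, cx, dt, mv, WBm, I3]
    ring

/-! ### parameters -/

section fam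

variable {X : Type} [TopologicalSpace X]

/-- parameters: `x`, `(μ, e, c, s, b, δ)`, normal parameters -/
abbrev Th (X : Type) := X × (Fin 6 → ℝ) × (Fin 14 → ℝ)

theorem cont_p (j : Fin 6) : Continuous fun θ : Th X => θ.2.1 j := by fun_prop
theorem cont_n (j : Fin 14) : Continuous fun θ : Th X => θ.2.2 j := by fun_prop

variable (F : Fam X)

/-- body matrix -/
def W1 (θ : Th X) : Fin 3 → V ℝ := WBm (θ.2.1 0) (F.B1 θ.1)
/-- space matrix -/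
def W2 (θ : Th X) : Fin 3 → V ℝ := WBm (θ.2.1 0) (F.B2 θ.1)
/-- twist -/
def vv (θ : Th X) : Q4 ℝ := fun i => θ.2.1 4 * F.v θ.1 i

theorem cB1 (i j : Fin 3) : Continuous fun θ : Th X => F.B1 θ.1 i j :=
  (continuous_apply_apply i j).comp (F.cB1.comp continuous_fst)
theorem cB2 (i j : Fin 3) : Continuous fun θ : Th X => F.B2 θ.1 i j :=
  (continuous_apply_apply i j).comp (F.cB2.comp continuous_fst)
theorem cA (i j : Fin 3) : Continuous fun θ : Th X => F.A θ.1 i j :=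
  (continuous_apply_apply i j).comp (F.cA.comp continuous_fst)
theorem cv (i : Fin 4) : Continuous fun θ : Th X => F.v θ.1 i :=
  (continuous_apply i).comp (F.cv.comp continuous_fst)

theorem cW1 (i j : Fin 3) : Continuous fun θ : Th X => W1 F θ i j := by
  have h1 := cB1 F i j
  have h2 := cont_p (X := X) 0
  unfold W1 WBm
  fun_prop
theorem cW2 (i j : Fin 3) : Continuous fun θ : Th X => W2 F θ i j := by
  have h1 := cB2 F i j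
  have h2 := cont_p (X := X) 0
  unfold W2 WBm
  fun_prop
theorem cvv (i : Fin 4) : Continuous fun θ : Th X => vv F θ i := by
  have h1 := cv F i
  have h2 := cont_p (X := X) 4
  unfold vv
  fun_prop

theorem symW {μ : ℝ} {B : Fin 3 → V ℝ} (h : Sym B) : Sym (WBm μ B) := by
  obtain ⟨h1, h2, h3⟩ := h
  refine ⟨?_, ?_, ?_⟩ <;> simp [WBm, I3, h1, h2, h3]

/-- second order coefficient for `l = 0` -/
def AX (M : Bool) (θ : Th X) : ℝ :=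
  (serX M (W1 F θ) (W2 F θ) (F.A θ.1) (vv F θ) (θ.2.1 1) 0 (θ.2.1 2) (θ.2.1 3) θ.2.2).c2

/-- second order coefficient -/
def PsiX (M : Bool) (θ : Th X) : ℝ :=
  AX F M θ + 16 * θ.2.1 5 * θ.2.1 1 ^ 2 * xq M (F.B1 θ.1) (F.B2 θ.1) (F.A θ.1)

theorem cont_xq (M : Bool) : Continuous fun θ : Th X => xq M (F.B1 θ.1) (F.B2 θ.1) (F.A θ.1) := by
  have h1 := cB1 F
  have h2 := cB2 F
  have h3 := cA F
  cases M
  · simp only [xq, x2b, fX, fXX, cx, dt, mv, Matrix.cons_val_zero, Matrix.cons_val_one,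
      Matrix.cons_val, Pi.add_apply]
    fun_prop
  · simp only [xq, x2s, fX, fXX, cx, dt, mv, Matrix.cons_val_zero, Matrix.cons_val_one,
      Matrix.cons_val, Pi.add_apply]
    fun_prop

theorem cont_kk {W : Th X → Fin 3 → V ℝ} (hW : ∀ i j, Continuous fun θ => W θ i j) (j : Fin 3) :
    Continuous fun θ => kk (W θ) j := by
  fin_cases j <;> simp [kk, cx, mv, dt] <;> fun_prop

theorem cont_Ad {g : Th X → Q4 ℝ} {a : Th X → V ℝ} (hg : ∀ i, Continuous fun θ => g θ i)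
    (ha : ∀ i, Continuous fun θ => a θ i) (j : Fin 3) :
    Continuous fun θ => Ad (qc (g θ)) (a θ) j := by
  fin_cases j <;> simp [Ad, qp, qm, qi, qc] <;> fun_prop

theorem cont_G0 (M : Bool) : (∀ j, Continuous fun θ : Th X =>
    (G0 M (W1 F θ) (W2 F θ) (θ.2.1 2) (θ.2.1 3)).1 j) ∧ ∀ j, Continuous fun θ : Th X =>
    (G0 M (W1 F θ) (W2 F θ) (θ.2.1 2) (θ.2.1 3)).2 j := by
  have h1 := cont_kk (cW1 F)
  have h2 := cont_kk (cW2 F)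
  cases M
  · have h3 := cont_Ad (g := fun θ : Th X => ![θ.2.1 2, θ.2.1 3, 0, 0]) (a := fun θ => kk (W2 F θ))
      (fun i => by fin_cases i <;> simp <;> fun_prop) h2
    exact ⟨fun j => (h1 j).sub (h2 j), fun j => ((h1 j).sub (h3 j)).neg⟩
  · have h3 := cont_Ad (g := fun θ : Th X => ![0, 0, 1, 0]) (a := fun θ => kk (W2 F θ))
      (fun i => continuous_const) h2
    exact ⟨fun j => (h1 j).add (h2 j), fun j => ((h1 j).add (h3 j)).neg⟩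

/-- a continuous family of truncated series -/
def ctE (c : Th X → T3 ℝ) (h0 : Continuous fun θ => (c θ).c0) (h1 : Continuous fun θ => (c θ).c1)
    (h2 : Continuous fun θ => (c θ).c2) : contT3 (Th X) := ⟨c, h0, h1, h2⟩

/-- constant series -/
def ctC {f : Th X → ℝ} (h : Continuous f) : contT3 (Th X) :=
  ctE (fun θ => ⟨f θ, 0, 0⟩) h continuous_const continuous_const

/-- linear series -/
def ctL {f : Th X → ℝ} (h : Continuous f) : contT3 (Th X) :=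
  ctE (fun θ => ⟨0, f θ, 0⟩) continuous_const h continuous_const

/-- affine series -/
def ctA {f g : Th X → ℝ} (h : Continuous f) (h' : Continuous g) : contT3 (Th X) :=
  ctE (fun θ => ⟨f θ, g θ, 0⟩) h h' continuous_const

/-- the entries of `(0, a, b)` -/
theorem cont_v3 {f g h : Th X → ℝ} (hf : Continuous f) (hg : Continuous g) (hh : Continuous h)
    (j : Fin 3) : Continuous fun θ => (![f θ, g θ, h θ] : V ℝ) j := by
  fin_cases j <;> simp <;> assumption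

/-- the point of the slice as a series -/
def gT (M : Bool) (c s a b : ℝ) : Q4 (T3 ℝ) := match M with
  | true => gM a b
  | false => gP c s a b

theorem serX_eq (M : Bool) (W Wp A : Fin 3 → V ℝ) (v : Q4 ℝ) (e l c s : ℝ) (n : Fin 14 → ℝ) :
    serX M W Wp A v e l c s n = PS (DTs W Wp A v e l) (gT M c s (n 0) (n 1)) (aS (n 2) (n 3))
      (bS (n 4) (n 5) (n 6) (n 7)) (gS (G0 M W Wp c s) ![n 8, n 9, n 10] ![n 11, n 12, n 13]) := by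
  cases M <;> rfl

theorem cont_AX (M : Bool) : Continuous (AX F M) := by
  obtain ⟨hG1, hG2⟩ := cont_G0 F M
  let D : Dat (contT3 (Th X)) := ⟨fun i j => ctC (cW1 F i j), fun i j => ctC (cW2 F i j),
    fun i j => ctC (cA F i j), fun i => ctC (cvv F i), ctL (cont_p 1),
    ctC (f := fun _ => 0) continuous_const⟩
  obtain ⟨g, hg⟩ : ∃ g : Q4 (contT3 (Th X)), ∀ θ, map4 (evT θ) g =
      gT M (θ.2.1 2) (θ.2.1 3) (θ.2.2 0) (θ.2.2 1) := by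
    cases M
    · refine ⟨![ctE (fun θ => ⟨θ.2.1 2, 0, -(θ.2.1 2 * ((θ.2.2 0 ^ 2 + θ.2.2 1 ^ 2) / 2))⟩)
        (cont_p 2) continuous_const (by fun_prop),
        ctE (fun θ => ⟨θ.2.1 3, 0, -(θ.2.1 3 * ((θ.2.2 0 ^ 2 + θ.2.2 1 ^ 2) / 2))⟩)
        (cont_p 3) continuous_const (by fun_prop), ctL (cont_n 0), ctL (cont_n 1)], fun θ => ?_⟩
      rw [map4_vec]
      rfl
    · refine ⟨![ctL (cont_n 0), ctL (cont_n 1),
        ctE (fun θ => ⟨1, 0, -((θ.2.2 0 ^ 2 + θ.2.2 1 ^ 2) / 2)⟩)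
        continuous_const continuous_const (by fun_prop), ctC (f := fun _ => 0) continuous_const],
        fun θ => ?_⟩
      rw [map4_vec]
      rfl
  let a : V6 (contT3 (Th X)) := (fun j => ctC (f := fun _ => (![1, 0, 0] : V ℝ) j) continuous_const,
    fun j => ctL (cont_v3 (continuous_const (y := 0)) (cont_n 2) (cont_n 3) j))
  let b : V6 (contT3 (Th X)) :=
    (fun j => ctL (cont_v3 (continuous_const (y := 0)) (cont_n 4) (cont_n 5) j),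
    fun j => ctA (f := fun _ => (![1, 0, 0] : V ℝ) j) continuous_const
      (cont_v3 (continuous_const (y := 0)) (cont_n 6) (cont_n 7) j))
  let G : V6 (contT3 (Th X)) :=
    (fun j => ctA (hG1 j) (cont_v3 (cont_n 8) (cont_n 9) (cont_n 10) j),
      fun j => ctA (hG2 j) (cont_v3 (cont_n 11) (cont_n 12) (cont_n 13) j))
  have h := H563H.contT3_c2 (PS D g a b G)
  have e : AX F M = fun θ => (evT θ (PS D g a b G)).c2 := by
    funext θ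
    rw [map_PS, hg, AX, serX_eq]
    rfl
  rw [e]
  exact h

theorem cont_PsiX (M : Bool) : Continuous (PsiX F M) := by
  have h1 := cont_AX F M
  have h2 := cont_xq F M
  unfold PsiX
  fun_prop

/-! ### transfer -/

section transfer

variable {S : Set (Th X)}

omit [TopologicalSpace X] in
theorem apC {a : Th X → ℝ} (ha : Bdd S a) :
    Approx S (fun θ _ => a θ) (fun θ => ⟨a θ, 0, 0⟩) := Approx.of_bdd ha

omit [TopologicalSpace X] in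
theorem apL {a : Th X → ℝ} (ha : Bdd S a) :
    Approx S (fun θ t => t * a θ) (fun θ => ⟨0, a θ, 0⟩) := Approx.of_mul_t ha

omit [TopologicalSpace X] in
theorem apQ {a : Th X → ℝ} (ha : Bdd S a) :
    Approx S (fun θ t => t ^ 2 * a θ) (fun θ => ⟨0, 0, a θ⟩) := by
  have h := Approx.of_val (S := S) (c := fun θ => ⟨0, 0, a θ⟩) (Bdd.const S 0)
    (Bdd.const S 0) ha
  have e : (fun θ t => t ^ 2 * a θ) = fun θ t => T3.val ⟨0, 0, a θ⟩ t := by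
    funext θ t
    simp only [T3.val]
    ring
  rw [e]
  exact h

theorem sqrt_bound {u : ℝ} (hu : 0 ≤ u) : |Real.sqrt (1 - u) - (1 - u / 2)| ≤ u ^ 2 := by
  by_cases h : u ≤ 1
  · have h0 : 0 ≤ 1 - u := by linarith
    have h1 := Real.sq_sqrt h0
    have h2 := Real.sqrt_nonneg (1 - u)
    set w := Real.sqrt (1 - u)
    have h3 : w ≤ 1 - u / 2 := by nlinarith
    rw [abs_of_nonpos (by linarith)]
    nlinarith [sq_nonneg (w - (1 - u / 2 - u ^ 2)), mul_nonneg hu hu, mul_nonneg h2 hu,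
      mul_nonneg h2 h0, mul_nonneg hu h0]
  · have h' := not_le.mp h
    rw [Real.sqrt_eq_zero_of_nonpos (by linarith), zero_sub, abs_neg, abs_le]
    constructor <;> nlinarith

omit [TopologicalSpace X] in
theorem apK {a b : Th X → ℝ} (ha : Bdd S a) (hb : Bdd S b) :
    Approx S (fun θ t => Real.sqrt (1 - (t * a θ) ^ 2 - (t * b θ) ^ 2))
      (fun θ => ⟨1, 0, -((a θ ^ 2 + b θ ^ 2) / 2)⟩) := by
  obtain ⟨A, hA⟩ := ha
  obtain ⟨B, hB⟩ := hb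
  have hab : ∀ θ ∈ S, a θ ^ 2 + b θ ^ 2 ≤ A ^ 2 + B ^ 2 := by
    intro θ hθ
    have h1 := sq_le_sq' (abs_le.1 (hA θ hθ)).1 (abs_le.1 (hA θ hθ)).2
    have h2 := sq_le_sq' (abs_le.1 (hB θ hθ)).1 (abs_le.1 (hB θ hθ)).2
    linarith
  refine ⟨Bdd.const S 1, Bdd.const S 0, ⟨(A ^ 2 + B ^ 2) / 2, fun θ hθ => ?_⟩,
    (A ^ 2 + B ^ 2) ^ 2, fun θ hθ t ht => ?_⟩
  · show |-((a θ ^ 2 + b θ ^ 2) / 2)| ≤ _
    rw [abs_neg, abs_of_nonneg (by positivity)]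
    have := hab θ hθ
    linarith
  · have e1 : 1 - (t * a θ) ^ 2 - (t * b θ) ^ 2 = 1 - t ^ 2 * (a θ ^ 2 + b θ ^ 2) := by ring
    have e2 : (⟨1, 0, -((a θ ^ 2 + b θ ^ 2) / 2)⟩ : T3 ℝ).val t =
        1 - t ^ 2 * (a θ ^ 2 + b θ ^ 2) / 2 := by
      simp only [T3.val]; ring
    show |Real.sqrt (1 - (t * a θ) ^ 2 - (t * b θ) ^ 2) -
      (⟨1, 0, -((a θ ^ 2 + b θ ^ 2) / 2)⟩ : T3 ℝ).val t| ≤ _
    rw [e1, e2]
    have h0 : 0 ≤ a θ ^ 2 + b θ ^ 2 := by positivity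
    have h1 := sqrt_bound (u := t ^ 2 * (a θ ^ 2 + b θ ^ 2)) (by positivity)
    refine h1.trans ?_
    have h2 := hab θ hθ
    have h3 : (a θ ^ 2 + b θ ^ 2) ^ 2 ≤ (A ^ 2 + B ^ 2) ^ 2 := pow_le_pow_left₀ h0 h2 2
    have h4 : t ^ 4 ≤ t ^ 3 := by
      have : t ^ 4 = t ^ 3 * t := by ring
      rw [this]
      exact mul_le_of_le_one_right (pow_nonneg ht.1 3) ht.2
    calc (t ^ 2 * (a θ ^ 2 + b θ ^ 2)) ^ 2 = (a θ ^ 2 + b θ ^ 2) ^ 2 * t ^ 4 := by ring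
      _ ≤ (A ^ 2 + B ^ 2) ^ 2 * t ^ 3 :=
        mul_le_mul h3 h4 (pow_nonneg ht.1 4) (by positivity)


omit [TopologicalSpace X] in
theorem apA {a b : Th X → ℝ} (ha : Bdd S a) (hb : Bdd S b) :
    Approx S (fun θ t => a θ + t * b θ) (fun θ => ⟨a θ, b θ, 0⟩) := by
  have h := Approx.of_val (S := S) (c := fun θ => ⟨a θ, b θ, 0⟩) ha hb (Bdd.const S 0)
  have e : (fun θ t => a θ + t * b θ) = fun θ t => T3.val ⟨a θ, b θ, 0⟩ t := by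
    funext θ t
    simp only [T3.val]
    ring
  rw [e]
  exact h

omit [TopologicalSpace X] in
theorem apCK {c a b : Th X → ℝ} (hc : Bdd S c) (ha : Bdd S a) (hb : Bdd S b) :
    Approx S (fun θ t => c θ * Real.sqrt (1 - (t * a θ) ^ 2 - (t * b θ) ^ 2))
      (fun θ => ⟨c θ, 0, -(c θ * ((a θ ^ 2 + b θ ^ 2) / 2))⟩) := by
  have h := (apC hc).mul (apK ha hb)
  have e : (fun θ => (⟨c θ, 0, -(c θ * ((a θ ^ 2 + b θ ^ 2) / 2))⟩ : T3 ℝ)) =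
      (fun θ => (⟨c θ, 0, 0⟩ : T3 ℝ)) * fun θ => ⟨1, 0, -((a θ ^ 2 + b θ ^ 2) / 2)⟩ := by
    funext θ
    ext <;> simp
  rw [e]
  exact h

/-- the value of the slice polynomial along a ray -/
def valX (M : Bool) (l : Th X → ℝ) (θ : Th X) (t : ℝ) : ℝ :=
  PX M ⟨W1 F θ, W2 F θ, F.A θ.1, vv F θ, t * θ.2.1 1, t ^ 2 * l θ⟩ (θ.2.1 2) (θ.2.1 3)
    (fun j => t * θ.2.2 j)

/-- the identities used -/
structure Ids : Prop where
  id1 : ∀ (M : Bool) (W Wp A : Fin 3 → V ℝ) (v : Q4 ℝ) (e l c s : ℝ) (n : Fin 14 → ℝ),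
    Sym W → Sym Wp → c ^ 2 + s ^ 2 = 1 → (serX M W Wp A v e l c s n).c0 = 0 ∧
      (serX M W Wp A v e l c s n).c1 = 0
  id2p : ID2P
  id2m : ID2M
  id3 : ∀ (M : Bool) (W Wp A : Fin 3 → V ℝ) (v : Q4 ℝ) (e l c s : ℝ) (n : Fin 14 → ℝ),
    Sym W → Sym Wp → c ^ 2 + s ^ 2 = 1 → (serX M W Wp A v e l c s n).c2 =
      (serX M W Wp A v e 0 c s n).c2 + 16 * l * xq M W Wp A

/-- the identities in the form of the stubs -/
theorem Ids.of (h1p : ID1P) (h1m : ID1M) (h2p : ID2P) (h2m : ID2M) (h3p : ID3P) (h3m : ID3M) :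
    Ids where
  id1 M W Wp A v e l c s n hW hWp hcs := by
    cases M
    · exact h1p W Wp A v e l c s _ _ _ _ _ _ _ _ _ _ hW hWp hcs
    · exact h1m W Wp A v e l _ _ _ _ _ _ _ _ _ _ hW hWp
  id2p := h2p
  id2m := h2m
  id3 M W Wp A v e l c s n hW hWp hcs := by
    cases M
    · exact h3p W Wp A v e l c s _ _ _ _ _ _ _ _ _ _ hW hWp hcs
    · exact h3m W Wp A v e l _ _ _ _ _ _ _ _ _ _ hW hWp

theorem main_transfer (I : Ids) (M : Bool) (hS : IsCompact S)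
    (hcs : ∀ θ ∈ S, θ.2.1 2 ^ 2 + θ.2.1 3 ^ 2 = 1) {l : Th X → ℝ} (hl : Continuous l)
    (hle : ∀ θ ∈ S, l θ * θ.2.1 0 ^ 2 = θ.2.1 5 * θ.2.1 1 ^ 2)
    (hpos : ∀ θ ∈ S, 0 < PsiX F M θ) :
    ∃ t0 > 0, ∀ θ ∈ S, ∀ t, 0 < t → t < t0 → 0 < valX F M l θ t := by
  have bd : ∀ {f : Th X → ℝ}, Continuous f → Bdd S f := fun hf =>
    Bdd.of_continuousOn hS hf.continuousOn
  obtain ⟨hG1, hG2⟩ := cont_G0 F M
  let D : Dat (approxRing S) := ⟨fun i j => (apC (bd (cW1 F i j))).mk',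
    fun i j => (apC (bd (cW2 F i j))).mk', fun i j => (apC (bd (cA F i j))).mk',
    fun i => (apC (bd (cvv F i))).mk', (apL (bd (cont_p 1))).mk', (apQ (bd hl)).mk'⟩
  obtain ⟨g, hgF, hgC⟩ : ∃ g : Q4 (approxRing S), (∀ θ t, map4 (evF S θ t) g =
      gX M (θ.2.1 2) (θ.2.1 3) (t * θ.2.2 0) (t * θ.2.2 1)) ∧ ∀ θ, map4 (evC S θ) g =
      gT M (θ.2.1 2) (θ.2.1 3) (θ.2.2 0) (θ.2.2 1) := by
    cases M
    · refine ⟨![(apCK (bd (cont_p 2)) (bd (cont_n 0)) (bd (cont_n 1))).mk',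
        (apCK (bd (cont_p 3)) (bd (cont_n 0)) (bd (cont_n 1))).mk',
        (apL (bd (cont_n 0))).mk', (apL (bd (cont_n 1))).mk'], fun θ t => ?_, fun θ => ?_⟩
      · rw [map4_vec]
        rfl
      · rw [map4_vec]
        rfl
    · refine ⟨![(apL (bd (cont_n 0))).mk', (apL (bd (cont_n 1))).mk',
        (apK (bd (cont_n 0)) (bd (cont_n 1))).mk', (apC (Bdd.const S 0)).mk'],
        fun θ t => ?_, fun θ => ?_⟩
      · rw [map4_vec]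
        rfl
      · rw [map4_vec]
        rfl
  let a : V6 (approxRing S) := (fun j => (apC (Bdd.const S ((![1, 0, 0] : V ℝ) j))).mk',
    fun j => (apL (bd (cont_v3 (continuous_const (y := 0)) (cont_n 2) (cont_n 3) j))).mk')
  let b : V6 (approxRing S) :=
    (fun j => (apL (bd (cont_v3 (continuous_const (y := 0)) (cont_n 4) (cont_n 5) j))).mk',
    fun j => (apA (Bdd.const S ((![1, 0, 0] : V ℝ) j))
      (bd (cont_v3 (continuous_const (y := 0)) (cont_n 6) (cont_n 7) j))).mk')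
  let G : V6 (approxRing S) :=
    (fun j => (apA (bd (hG1 j)) (bd (cont_v3 (cont_n 8) (cont_n 9) (cont_n 10) j))).mk',
      fun j => (apA (bd (hG2 j)) (bd (cont_v3 (cont_n 11) (cont_n 12) (cont_n 13) j))).mk')
  let P : approxRing S := PS D g a b G
  have hF : ∀ θ t, evF S θ t P = valX F M l θ t := by
    intro θ t
    show evF S θ t (PS D g a b G) = _
    rw [map_PS, hgF]
    have ea : map6 (evF S θ t) a = (![1, 0, 0], ![0, t * θ.2.2 2, t * θ.2.2 3]) := by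
      refine Prod.ext rfl ?_
      refine V_ext ?_ rfl rfl
      exact mul_zero t
    have eb : map6 (evF S θ t) b = (![0, t * θ.2.2 4, t * θ.2.2 5],
        ![1, t * θ.2.2 6, t * θ.2.2 7]) := by
      refine Prod.ext ?_ ?_
      · exact V_ext (mul_zero t) rfl rfl
      · refine V_ext ?_ ?_ ?_
        · show (1 : ℝ) + t * 0 = 1
          ring
        · show (0 : ℝ) + t * θ.2.2 6 = t * θ.2.2 6
          ring
        · show (0 : ℝ) + t * θ.2.2 7 = t * θ.2.2 7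
          ring
    have eG : map6 (evF S θ t) G = G0 M (W1 F θ) (W2 F θ) (θ.2.1 2) (θ.2.1 3) +
        (![t * θ.2.2 8, t * θ.2.2 9, t * θ.2.2 10],
          ![t * θ.2.2 11, t * θ.2.2 12, t * θ.2.2 13]) := by
      refine Prod.ext ?_ ?_
      · exact V_ext rfl rfl rfl
      · exact V_ext rfl rfl rfl
    rw [ea, eb, eG]
    rfl
  have hC : ∀ θ, evC S θ P = serX M (W1 F θ) (W2 F θ) (F.A θ.1) (vv F θ) (θ.2.1 1) (l θ)
      (θ.2.1 2) (θ.2.1 3) θ.2.2 := by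
    intro θ
    show evC S θ (PS D g a b G) = _
    rw [map_PS, hgC, serX_eq]
    rfl
  have hW1 : ∀ θ, Sym (W1 F θ) := fun θ => symW (F.s1 θ.1)
  have hW2 : ∀ θ, Sym (W2 F θ) := fun θ => symW (F.s2 θ.1)
  have hc0 : ∀ θ ∈ S, (evC S θ P).c0 = 0 := by
    intro θ hθ
    rw [hC]
    exact (I.id1 M _ _ _ _ _ _ _ _ _ (hW1 θ) (hW2 θ) (hcs θ hθ)).1
  have hc1 : ∀ θ ∈ S, (evC S θ P).c1 = 0 := by
    intro θ hθ
    rw [hC]
    exact (I.id1 M _ _ _ _ _ _ _ _ _ (hW1 θ) (hW2 θ) (hcs θ hθ)).2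
  have hc2 : ∀ θ ∈ S, (evC S θ P).c2 = PsiX F M θ := by
    intro θ hθ
    have h := I.id3 M (W1 F θ) (W2 F θ) (F.A θ.1) (vv F θ) (θ.2.1 1) (l θ)
      (θ.2.1 2) (θ.2.1 3) θ.2.2 (hW1 θ) (hW2 θ) (hcs θ hθ)
    rw [hC, h, PsiX, AX, W1, W2, xq_WB]
    have h3 := hle θ hθ
    linear_combination (16 * xq M (F.B1 θ.1) (F.B2 θ.1) (F.A θ.1)) * h3
  obtain ⟨κ, hκ, hκ'⟩ : ∃ κ > 0, ∀ θ ∈ S, κ ≤ PsiX F M θ := by
    rcases S.eq_empty_or_nonempty with h | h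
    · exact ⟨1, one_pos, fun θ hθ => by rw [h] at hθ; exact hθ.elim⟩
    · obtain ⟨θ₀, h₀, hmin⟩ := hS.exists_isMinOn h (cont_PsiX F M).continuousOn
      exact ⟨PsiX F M θ₀, hpos θ₀ h₀, fun θ hθ => hmin hθ⟩
  obtain ⟨t0, ht0, h⟩ := H563H.approxRing_pos P hc0 hc1 hκ
    (fun θ hθ => by rw [hc2 θ hθ]; exact hκ' θ hθ)
  refine ⟨t0, ht0, fun θ hθ t h1 h2 => ?_⟩
  have := h θ hθ t h1 h2
  rwa [hF] at this

end transfer

/-! ### positivity of the second order coefficient -/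

/-- sum of squares of the normalised variables -/
def nrm (θ : Th X) : ℝ := θ.2.1 1 ^ 2 + ∑ j, θ.2.2 j ^ 2

theorem cont_nrm : Continuous (nrm : Th X → ℝ) := by
  unfold nrm
  fun_prop

/-- the compact set of parameters -/
def KR (X : Type) (R : ℝ) : Set (Th X) := {θ | θ.2.1 2 ^ 2 + θ.2.1 3 ^ 2 = 1 ∧ nrm θ = 1 ∧
  |θ.2.1 0| ≤ 1 ∧ |θ.2.1 4| ≤ R ∧ |θ.2.1 5| ≤ R}

theorem isCompact_KR [CompactSpace X] {R : ℝ} (hR : 0 ≤ R) : IsCompact (KR X R) := by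
  have hc : IsCompact ((univ : Set X) ×ˢ (Metric.closedBall (0 : Fin 6 → ℝ) (R + 1) ×ˢ
      Metric.closedBall (0 : Fin 14 → ℝ) 1)) :=
    isCompact_univ.prod ((isCompact_closedBall _ _).prod (isCompact_closedBall _ _))
  refine hc.of_isClosed_subset ?_ ?_
  · have h1 : Continuous fun θ : Th X => θ.2.1 2 ^ 2 + θ.2.1 3 ^ 2 := by fun_prop
    have h2 := cont_nrm (X := X)
    have h3 := (cont_p (X := X) 0).abs
    have h4 := (cont_p (X := X) 4).abs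
    have h5 := (cont_p (X := X) 5).abs
    exact (isClosed_eq h1 continuous_const).inter <| (isClosed_eq h2 continuous_const).inter <|
      (isClosed_le h3 continuous_const).inter <|
      (isClosed_le h4 continuous_const).inter (isClosed_le h5 continuous_const)
  · rintro θ ⟨h1, h2, h3, h4, h5⟩
    have hs0 : 0 ≤ ∑ j, θ.2.2 j ^ 2 := Finset.sum_nonneg fun j _ => sq_nonneg _
    have hs1 : ∑ j, θ.2.2 j ^ 2 ≤ 1 := by
      have := sq_nonneg (θ.2.1 1)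
      have h2' : θ.2.1 1 ^ 2 + ∑ j, θ.2.2 j ^ 2 = 1 := h2
      linarith
    have h1e : θ.2.1 1 ^ 2 ≤ 1 := by
      have h2' : θ.2.1 1 ^ 2 + ∑ j, θ.2.2 j ^ 2 = 1 := h2
      linarith
    refine ⟨mem_univ _, ?_, ?_⟩
    · rw [mem_closedBall_zero_iff, pi_norm_le_iff_of_nonneg (by linarith)]
      intro j
      rw [Real.norm_eq_abs]
      have q2 := sq_nonneg (θ.2.1 2)
      have q3 := sq_nonneg (θ.2.1 3)
      have b2 : θ.2.1 2 ^ 2 ≤ 1 := by linarith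
      have b3 : θ.2.1 3 ^ 2 ≤ 1 := by linarith
      fin_cases j
      · exact h3.trans (by linarith)
      · exact ((sq_le_one_iff_abs_le_one _).1 h1e).trans (by linarith)
      · exact ((sq_le_one_iff_abs_le_one _).1 b2).trans (by linarith)
      · exact ((sq_le_one_iff_abs_le_one _).1 b3).trans (by linarith)
      · exact h4.trans (by linarith)
      · exact h5.trans (by linarith)
    · rw [mem_closedBall_zero_iff, pi_norm_le_iff_of_nonneg zero_le_one]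
      intro j
      rw [Real.norm_eq_abs]
      refine (sq_le_one_iff_abs_le_one _).1 ?_
      exact (Finset.single_le_sum (f := fun j => θ.2.2 j ^ 2) (fun i _ => sq_nonneg _)
        (Finset.mem_univ j)).trans hs1

theorem tube {Y : Type*} [TopologicalSpace Y] {K : Set Y} (hK : IsCompact K) {φ Ψ : Y → ℝ}
    (hφ : Continuous φ) (hΨ : Continuous Ψ) (h0 : ∀ y, 0 ≤ φ y)
    (h : ∀ y ∈ K, φ y = 0 → 0 < Ψ y) : ∃ η > 0, ∀ y ∈ K, φ y < η → 0 < Ψ y := by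
  have hK' : IsCompact (K ∩ {y | Ψ y ≤ 0}) := hK.inter_right (isClosed_le hΨ continuous_const)
  rcases (K ∩ {y | Ψ y ≤ 0}).eq_empty_or_nonempty with he | he
  · refine ⟨1, one_pos, fun y hy _ => ?_⟩
    by_contra hcon
    have : y ∈ K ∩ {y | Ψ y ≤ 0} := ⟨hy, not_lt.mp hcon⟩
    rw [he] at this
    exact this
  · obtain ⟨y₀, h₀, hmin⟩ := hK'.exists_isMinOn he hφ.continuousOn
    have hp : 0 < φ y₀ := by
      rcases (h0 y₀).lt_or_eq with h1 | h1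
      · exact h1
      · exact absurd (h y₀ h₀.1 h1.symm) (not_lt.mpr h₀.2)
    refine ⟨φ y₀, hp, fun y hy hlt => ?_⟩
    by_contra hcon
    have h1 : y ∈ K ∩ {y | Ψ y ≤ 0} := ⟨hy, not_lt.mp hcon⟩
    exact absurd hlt (not_lt.mpr (hmin h1))

theorem WB_zero (B : Fin 3 → V ℝ) : WBm 0 B = I3 := by
  funext i j
  simp [WBm]

theorem sum14 (n : Fin 14 → ℝ) : ∑ j, n j ^ 2 = n 0 ^ 2 + n 1 ^ 2 + n 2 ^ 2 + n 3 ^ 2 + n 4 ^ 2 +
    n 5 ^ 2 + n 6 ^ 2 + n 7 ^ 2 + n 8 ^ 2 + n 9 ^ 2 + n 10 ^ 2 + n 11 ^ 2 + n 12 ^ 2 +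
    n 13 ^ 2 := by
  simp only [Fin.sum_univ_succ]
  simp
  ring_nf

theorem sum_zero20 {a1 a2 a3 a4 a5 a6 a7 a8 a9 a10 a11 a12 a13 a14 a15 a16 a17 a18 a19 a20 : ℝ}
    (h1 : 0 ≤ a1) (h2 : 0 ≤ a2) (h3 : 0 ≤ a3) (h4 : 0 ≤ a4) (h5 : 0 ≤ a5) (h6 : 0 ≤ a6)
    (h7 : 0 ≤ a7) (h8 : 0 ≤ a8) (h9 : 0 ≤ a9) (h10 : 0 ≤ a10) (h11 : 0 ≤ a11) (h12 : 0 ≤ a12)
    (h13 : 0 ≤ a13) (h14 : 0 ≤ a14) (h15 : 0 ≤ a15) (h16 : 0 ≤ a16) (h17 : 0 ≤ a17)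
    (h18 : 0 ≤ a18) (h19 : 0 ≤ a19) (h20 : 0 ≤ a20)
    (h : 4 * ((a1 + a2) + (a3 + a4) + (a5 + a6) + (a7 + a8)) +
      3 * ((a9 + a10) + (a11 + a12) + (a13 + a14) + (a15 + a16)) +
      3 * (a17 + a18 + 2 * a19) + a20 ≤ 0) :
    a1 = 0 ∧ a2 = 0 ∧ a3 = 0 ∧ a4 = 0 ∧ a5 = 0 ∧ a6 = 0 ∧ a7 = 0 ∧ a8 = 0 ∧ a9 = 0 ∧ a10 = 0 ∧
      a11 = 0 ∧ a12 = 0 ∧ a17 = 0 ∧ a18 = 0 ∧ a20 = 0 := by
  refine ⟨?_, ?_, ?_, ?_, ?_, ?_, ?_, ?_, ?_, ?_, ?_, ?_, ?_, ?_, ?_⟩ <;> linarith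

theorem sq0 {a : ℝ} (h : a ^ 2 = 0) : a = 0 := pow_eq_zero_iff two_ne_zero |>.1 h

theorem HP_pos {v2 v3 e c s K : ℝ} {n : Fin 14 → ℝ} (hcs : c ^ 2 + s ^ 2 = 1)
    (hK : e = 0 ∨ 0 < K) (hn : e ^ 2 + ∑ j, n j ^ 2 = 1) :
    0 < HP v2 v3 e c s (n 0) (n 1) (n 2) (n 3) (n 4) (n 5) (n 6) (n 7) ![n 8, n 9, n 10]
      ![n 11, n 12, n 13] - 16 * e ^ 2 * (v2 ^ 2 + v3 ^ 2) + e ^ 2 * K := by
  by_contra hcon
  have hcon' := not_lt.mp hcon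
  have he0 : 0 ≤ e ^ 2 * K := by
    rcases hK with h | h
    · rw [h]; simp
    · positivity
  rw [sum14] at hn
  obtain ⟨o2, ho2⟩ : ∃ a, a = n 0 := ⟨_, rfl⟩
  obtain ⟨o3, ho3⟩ : ∃ a, a = n 1 := ⟨_, rfl⟩
  obtain ⟨r2, hr2⟩ : ∃ a, a = n 2 := ⟨_, rfl⟩
  obtain ⟨r3, hr3⟩ : ∃ a, a = n 3 := ⟨_, rfl⟩
  obtain ⟨t2, ht2⟩ : ∃ a, a = n 4 := ⟨_, rfl⟩
  obtain ⟨t3, ht3⟩ : ∃ a, a = n 5 := ⟨_, rfl⟩
  obtain ⟨m2, hm2⟩ : ∃ a, a = n 6 := ⟨_, rfl⟩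
  obtain ⟨m3, hm3⟩ : ∃ a, a = n 7 := ⟨_, rfl⟩
  obtain ⟨g0, hg0⟩ : ∃ a, a = n 8 := ⟨_, rfl⟩
  obtain ⟨g1, hg1⟩ : ∃ a, a = n 9 := ⟨_, rfl⟩
  obtain ⟨g2, hg2⟩ : ∃ a, a = n 10 := ⟨_, rfl⟩
  obtain ⟨h0, hh0⟩ : ∃ a, a = n 11 := ⟨_, rfl⟩
  obtain ⟨h1, hh1⟩ : ∃ a, a = n 12 := ⟨_, rfl⟩
  obtain ⟨h2, hh2⟩ : ∃ a, a = n 13 := ⟨_, rfl⟩
  rw [← ho2, ← ho3, ← hr2, ← hr3, ← ht2, ← ht3, ← hm2, ← hm3, ← hg0, ← hg1, ← hg2, ← hh0, ← hh1,
    ← hh2] at hn hcon'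
  simp only [HP, sq2, Matrix.cons_val_zero, Matrix.cons_val_one, Matrix.cons_val] at hcon'
  obtain ⟨z1, z2, z3, z4, z5, z6, z7, z8, z9, z10, z11, z12, z17, z18, z20⟩ := sum_zero20
    (sq_nonneg t2) (sq_nonneg t3) (sq_nonneg r2) (sq_nonneg r3)
    (sq_nonneg (t2 - r2 + m2)) (sq_nonneg (t3 - r3 + m3))
    (sq_nonneg (-(t3 - (2 * c * s * r2 + (c ^ 2 - s ^ 2) * r3) +
      (2 * c * s * m2 + (c ^ 2 - s ^ 2) * m3)) + 2 * (c * o2 - s * o3)))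
    (sq_nonneg ((t2 - ((c ^ 2 - s ^ 2) * r2 - 2 * c * s * r3) +
      ((c ^ 2 - s ^ 2) * m2 - 2 * c * s * m3)) + 2 * (s * o2 + c * o3)))
    (sq_nonneg (g1 + ((1 - (c ^ 2 - s ^ 2)) * m3 - 2 * c * s * m2) +
      2 * (c * o2 - s * o3) + 4 * c * e * v2))
    (sq_nonneg (g2 - ((1 - (c ^ 2 - s ^ 2)) * m2 + 2 * c * s * m3) +
      2 * (s * o2 + c * o3) + 4 * c * e * v3))
    (sq_nonneg (h1 + 2 * (c * o2 + s * o3))) (sq_nonneg (h2 + 2 * (c * o3 - s * o2)))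
    (sq_nonneg (g1 + h1 - 4 * (t3 - r3) + 4 * c * o2 -
      (2 * c * s * m2 + (1 + (c ^ 2 - s ^ 2)) * m3) - 4 * s * e * v3))
    (sq_nonneg (g2 + h2 + 4 * (t2 - r2) + 4 * c * o3 +
      ((1 + (c ^ 2 - s ^ 2)) * m2 - 2 * c * s * m3) + 4 * s * e * v2))
    (sq_nonneg (g1 + ((c ^ 2 - s ^ 2) * h1 - 2 * c * s * h2) +
      4 * (t3 - (2 * c * s * r2 + (c ^ 2 - s ^ 2) * r3)) +
          (2 * c * s * m2 + (1 + (c ^ 2 - s ^ 2)) * m3) + 4 * s * e * v3))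
    (sq_nonneg (g2 + (2 * c * s * h1 + (c ^ 2 - s ^ 2) * h2) -
      4 * (t2 - ((c ^ 2 - s ^ 2) * r2 - 2 * c * s * r3)) -
          ((1 + (c ^ 2 - s ^ 2)) * m2 - 2 * c * s * m3) - 4 * s * e * v2))
    (sq_nonneg g0) (sq_nonneg h0) (sq_nonneg (g0 + h0)) he0 (by linarith)
  have t2' := sq0 z1
  have t3' := sq0 z2
  have r2' := sq0 z3
  have r3' := sq0 z4
  have m2a := sq0 z5
  have m3a := sq0 z6
  rw [t2', r2'] at m2a
  rw [t3', r3'] at m3a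
  have m2' : m2 = 0 := by linarith
  have m3' : m3 = 0 := by linarith
  have o1a := sq0 z7
  have o2a := sq0 z8
  rw [t3', r2', r3', m2', m3'] at o1a
  rw [t2', r2', r3', m2', m3'] at o2a
  have e1 : c * o2 - s * o3 = 0 := by linarith
  have e2 : s * o2 + c * o3 = 0 := by linarith
  have o2' : o2 = 0 := by
    have : (c ^ 2 + s ^ 2) * o2 = 0 := by linear_combination c * e1 + s * e2
    rwa [hcs, one_mul] at this
  have o3' : o3 = 0 := by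
    have : (c ^ 2 + s ^ 2) * o3 = 0 := by linear_combination c * e2 - s * e1
    rwa [hcs, one_mul] at this
  have he : e = 0 := by
    rcases hK with h | h
    · exact h
    · rcases mul_eq_zero.1 z20 with h1 | h1
      · exact sq0 h1
      · exact absurd h1 h.ne'
  have g1a := sq0 z9
  have g2a := sq0 z10
  have h1a := sq0 z11
  have h2a := sq0 z12
  have g0' := sq0 z17
  have h0' := sq0 z18
  rw [m2', m3', o2', o3', he] at g1a g2a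
  rw [o2', o3'] at h1a h2a
  have g1' : g1 = 0 := by linarith
  have g2' : g2 = 0 := by linarith
  have h1' : h1 = 0 := by linarith
  have h2' : h2 = 0 := by linarith
  rw [he, t2', t3', r2', r3', m2', m3', o2', o3', g0', g1', g2', h0', h1', h2'] at hn
  norm_num at hn

theorem sum_zero19 {a1 a2 a3 a4 a5 a6 a7 a8 a9 a10 a11 a12 a13 a14 a15 a16 a17 a18 a19 : ℝ}
    (h1 : 0 ≤ a1) (h2 : 0 ≤ a2) (h3 : 0 ≤ a3) (h4 : 0 ≤ a4) (h5 : 0 ≤ a5) (h6 : 0 ≤ a6)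
    (h7 : 0 ≤ a7) (h8 : 0 ≤ a8) (h9 : 0 ≤ a9) (h10 : 0 ≤ a10) (h11 : 0 ≤ a11) (h12 : 0 ≤ a12)
    (h13 : 0 ≤ a13) (h14 : 0 ≤ a14) (h15 : 0 ≤ a15) (h16 : 0 ≤ a16) (h17 : 0 ≤ a17)
    (h18 : 0 ≤ a18) (h19 : 0 ≤ a19)
    (h : 4 * (a1 + a2 + a3 + a4 + a5 + a6 + a7 + a8) +
      3 * (a9 + a10 + a11 + a12 + a13 + a14 + a15 + a16) +
      9 * (a17 + a18) + 24 * a19 ≤ 0) :
    a1 = 0 ∧ a2 = 0 ∧ a3 = 0 ∧ a4 = 0 ∧ a5 = 0 ∧ a6 = 0 ∧ a7 = 0 ∧ a8 = 0 ∧ a9 = 0 ∧ a10 = 0 ∧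
      a11 = 0 ∧ a12 = 0 ∧ a17 = 0 ∧ a18 = 0 ∧ a19 = 0 := by
  refine ⟨?_, ?_, ?_, ?_, ?_, ?_, ?_, ?_, ?_, ?_, ?_, ?_, ?_, ?_, ?_⟩ <;> linarith

theorem HM_pos {e : ℝ} {n : Fin 14 → ℝ} (hn : e ^ 2 + ∑ j, n j ^ 2 = 1) :
    0 < HM e (n 0) (n 1) (n 2) (n 3) (n 4) (n 5) (n 6) (n 7) ![n 8, n 9, n 10]
      ![n 11, n 12, n 13] := by
  by_contra hcon
  have hcon' := not_lt.mp hcon
  rw [sum14] at hn
  obtain ⟨o2, ho2⟩ : ∃ a, a = n 0 := ⟨_, rfl⟩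
  obtain ⟨o3, ho3⟩ : ∃ a, a = n 1 := ⟨_, rfl⟩
  obtain ⟨r2, hr2⟩ : ∃ a, a = n 2 := ⟨_, rfl⟩
  obtain ⟨r3, hr3⟩ : ∃ a, a = n 3 := ⟨_, rfl⟩
  obtain ⟨t2, ht2⟩ : ∃ a, a = n 4 := ⟨_, rfl⟩
  obtain ⟨t3, ht3⟩ : ∃ a, a = n 5 := ⟨_, rfl⟩
  obtain ⟨m2, hm2⟩ : ∃ a, a = n 6 := ⟨_, rfl⟩
  obtain ⟨m3, hm3⟩ : ∃ a, a = n 7 := ⟨_, rfl⟩
  obtain ⟨g0, hg0⟩ : ∃ a, a = n 8 := ⟨_, rfl⟩
  obtain ⟨g1, hg1⟩ : ∃ a, a = n 9 := ⟨_, rfl⟩
  obtain ⟨g2, hg2⟩ : ∃ a, a = n 10 := ⟨_, rfl⟩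
  obtain ⟨h0, hh0⟩ : ∃ a, a = n 11 := ⟨_, rfl⟩
  obtain ⟨h1, hh1⟩ : ∃ a, a = n 12 := ⟨_, rfl⟩
  obtain ⟨h2, hh2⟩ : ∃ a, a = n 13 := ⟨_, rfl⟩
  rw [← ho2, ← ho3, ← hr2, ← hr3, ← ht2, ← ht3, ← hm2, ← hm3, ← hg0, ← hg1, ← hg2, ← hh0, ← hh1,
    ← hh2] at hn hcon'
  simp only [HM, Matrix.cons_val_zero, Matrix.cons_val_one, Matrix.cons_val] at hcon'
  obtain ⟨z1, z2, z3, z4, z5, z6, z7, z8, z9, z10, z11, z12, z17, z18, z19⟩ := sum_zero19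
    (sq_nonneg t2) (sq_nonneg t3) (sq_nonneg r2) (sq_nonneg r3)
    (sq_nonneg (r3 - t3 - m3 + e)) (sq_nonneg (t2 - r2 + m2))
    (sq_nonneg (r3 - t3 + m3 + 2 * o2 - e))
    (sq_nonneg (t2 + r2 + m2 + 2 * o3))
    (sq_nonneg (g1 + 2 * m3 + 2 * o2)) (sq_nonneg (g2 + 2 * o3))
    (sq_nonneg (h1 + 2 * m3 + 2 * o2)) (sq_nonneg (h2 - 2 * m2 - 2 * o3))
    (sq_nonneg (g1 + h1 + 4 * (r3 - t3) + 2 * m3 + 4 * o2))
    (sq_nonneg (g2 + h2 + 4 * (t2 - r2)))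
    (sq_nonneg (g1 + h1 - 4 * (r3 - t3) + 2 * m3))
    (sq_nonneg (g2 - h2 - 4 * (t2 + r2)))
    (sq_nonneg g0) (sq_nonneg h0) (sq_nonneg e) (by linarith)
  have t2' := sq0 z1
  have t3' := sq0 z2
  have r2' := sq0 z3
  have r3' := sq0 z4
  have he := sq0 z19
  have m3a := sq0 z5
  have m2a := sq0 z6
  rw [r3', t3', he] at m3a
  rw [t2', r2'] at m2a
  have m3' : m3 = 0 := by linarith
  have m2' : m2 = 0 := by linarith
  have o2a := sq0 z7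
  have o3a := sq0 z8
  rw [r3', t3', m3', he] at o2a
  rw [t2', r2', m2'] at o3a
  have o2' : o2 = 0 := by linarith
  have o3' : o3 = 0 := by linarith
  have g1a := sq0 z9
  have g2a := sq0 z10
  have h1a := sq0 z11
  have h2a := sq0 z12
  have g0' := sq0 z17
  have h0' := sq0 z18
  rw [m3', o2'] at g1a h1a
  rw [o3'] at g2a
  rw [m2', o3'] at h2a
  have g1' : g1 = 0 := by linarith
  have g2' : g2 = 0 := by linarith
  have h1' : h1 = 0 := by linarith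
  have h2' : h2 = 0 := by linarith
  rw [he, t2', t3', r2', r3', m2', m3', o2', o3', g0', g1', g2', h0', h1', h2'] at hn
  norm_num at hn

theorem PsiX_pos_P (I : Ids) {θ : Th X} (hcs : θ.2.1 2 ^ 2 + θ.2.1 3 ^ 2 = 1) (hn : nrm θ = 1)
    (hμ : θ.2.1 0 = 0) (h : θ.2.1 1 = 0 ∨ 0 < θ.2.1 4 ^ 2 * (F.v θ.1 2 ^ 2 + F.v θ.1 3 ^ 2) +
      θ.2.1 5 * x2b (F.B1 θ.1) (F.B2 θ.1) (F.A θ.1) ![1, 0, 0] ![1, 0, 0]) :
    0 < PsiX F false θ := by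
  have h1 : AX F false θ = HP (vv F θ 2) (vv F θ 3) (θ.2.1 1) (θ.2.1 2) (θ.2.1 3) (θ.2.2 0)
      (θ.2.2 1) (θ.2.2 2) (θ.2.2 3) (θ.2.2 4) (θ.2.2 5) (θ.2.2 6) (θ.2.2 7)
      ![θ.2.2 8, θ.2.2 9, θ.2.2 10] ![θ.2.2 11, θ.2.2 12, θ.2.2 13] := by
    rw [AX, W1, W2, hμ, WB_zero, WB_zero]
    exact I.id2p _ _ _ _ _ _ _ _ _ _ _ _ _ _ _ hcs
  rw [PsiX, h1]
  have h2 := HP_pos (e := θ.2.1 1) (v2 := vv F θ 2) (v3 := vv F θ 3)
    (K := 16 * (θ.2.1 4 ^ 2 * (F.v θ.1 2 ^ 2 + F.v θ.1 3 ^ 2) +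
      θ.2.1 5 * x2b (F.B1 θ.1) (F.B2 θ.1) (F.A θ.1) ![1, 0, 0] ![1, 0, 0])) (n := θ.2.2) hcs
    (h.imp_right fun h => by linarith) hn
  have h3 : xq false (F.B1 θ.1) (F.B2 θ.1) (F.A θ.1) =
    x2b (F.B1 θ.1) (F.B2 θ.1) (F.A θ.1) ![1, 0, 0] ![1, 0, 0] := rfl
  have h4 : vv F θ 2 = θ.2.1 4 * F.v θ.1 2 := rfl
  have h5 : vv F θ 3 = θ.2.1 4 * F.v θ.1 3 := rfl
  rw [h3]
  rw [h4, h5] at h2 ⊢
  refine lt_of_lt_of_eq h2 ?_
  ring

theorem PsiX_pos_M (I : Ids) {θ : Th X} (hn : nrm θ = 1)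
    (hμ : θ.2.1 0 = 0) (h : θ.2.1 4 = 0 ∧ (θ.2.1 1 = 0 ∨ θ.2.1 5 = 0)) :
    0 < PsiX F true θ := by
  have hv : vv F θ = 0 := by
    funext i
    simp [vv, h.1]
  have hd : 16 * θ.2.1 5 * θ.2.1 1 ^ 2 * xq true (F.B1 θ.1) (F.B2 θ.1) (F.A θ.1) = 0 := by
    rcases h.2 with h | h
    · rw [h]; ring
    · rw [h]; ring
  have h1 : AX F true θ = HM (θ.2.1 1) (θ.2.2 0)
      (θ.2.2 1) (θ.2.2 2) (θ.2.2 3) (θ.2.2 4) (θ.2.2 5) (θ.2.2 6) (θ.2.2 7)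
      ![θ.2.2 8, θ.2.2 9, θ.2.2 10] ![θ.2.2 11, θ.2.2 12, θ.2.2 13] := by
    rw [AX, W1, W2, hμ, WB_zero, WB_zero, hv]
    exact I.id2m _ _ _ _ _ _ _ _ _ _ _ _
  rw [PsiX, h1, hd, add_zero]
  exact HM_pos hn

/-! ### normalisation -/

theorem normalise (M : Bool) (x : X) {μ e c s b δ ρ : ℝ} {n : Fin 14 → ℝ} (l : Th X → ℝ)
    (l0 : ℝ) (hl0 : ∀ t, 0 < t → ∀ m, t ^ 2 * l (x, ![μ, e / t, c, s, b, δ], m) = l0)
    (hcs : c ^ 2 + s ^ 2 = 1) (hμ : |μ| ≤ 1) {R : ℝ} (hb : |b| ≤ R) (hδ : |δ| ≤ R)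
    (he0 : 0 ≤ e) (he : e < ρ) (hn : ∀ j, |n j| < ρ) (hne : e ≠ 0 ∨ n ≠ 0) :
    ∃ t, 0 < t ∧ t < 4 * ρ ∧ ∃ θ ∈ KR X R, θ.1 = x ∧ θ.2.1 = ![μ, e / t, c, s, b, δ] ∧
      valX F M l θ t = PX M ⟨WBm μ (F.B1 x), WBm μ (F.B2 x), F.A x, fun i => b * F.v x i, e, l0⟩
        c s n := by
  have hρ : 0 < ρ := he0.trans_lt he
  obtain ⟨N, hN⟩ : ∃ N, N = e ^ 2 + ∑ j, n j ^ 2 := ⟨_, rfl⟩
  have hs0 : 0 ≤ ∑ j, n j ^ 2 := Finset.sum_nonneg fun j _ => sq_nonneg _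
  have hN0 : 0 ≤ N := by rw [hN]; positivity
  have hNpos : 0 < N := by
    rcases hN0.lt_or_eq with h | h
    · exact h
    · exfalso
      have q := sq_nonneg e
      have e1 : e ^ 2 = 0 := by linarith
      have e2 : ∑ j, n j ^ 2 = 0 := by linarith
      rcases hne with h1 | h1
      · exact h1 (sq0 e1)
      · apply h1
        have e3 := (Finset.sum_eq_zero_iff_of_nonneg (fun j _ => sq_nonneg (n j))).1 e2
        funext j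
        exact sq0 (e3 j (Finset.mem_univ j))
  have hNlt : N < 16 * ρ ^ 2 := by
    have h1 : e ^ 2 ≤ ρ ^ 2 := pow_le_pow_left₀ he0 he.le 2
    have h2 : ∑ j, n j ^ 2 ≤ ∑ j : Fin 14, ρ ^ 2 := by
      refine Finset.sum_le_sum fun j _ => ?_
      have := abs_lt.1 (hn j)
      exact sq_le_sq' this.1.le this.2.le
    rw [Finset.sum_const, Finset.card_univ, Fintype.card_fin, nsmul_eq_mul] at h2
    have h3 : 0 < ρ ^ 2 := by positivity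
    push_cast at h2
    linarith
  obtain ⟨t, ht⟩ : ∃ t, t = Real.sqrt N := ⟨_, rfl⟩
  have htpos : 0 < t := by rw [ht]; exact Real.sqrt_pos.2 hNpos
  have ht2 : t ^ 2 = N := by rw [ht]; exact Real.sq_sqrt hN0
  have htlt : t < 4 * ρ := by
    refine lt_of_pow_lt_pow_left₀ 2 (by positivity) ?_
    rw [ht2]
    calc N < 16 * ρ ^ 2 := hNlt
      _ = (4 * ρ) ^ 2 := by ring
  have htne : t ≠ 0 := htpos.ne'
  refine ⟨t, htpos, htlt, (x, ![μ, e / t, c, s, b, δ], fun j => n j / t),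
    ⟨?_, ?_, ?_, ?_, ?_⟩, rfl, rfl, ?_⟩
  · exact hcs
  · show (e / t) ^ 2 + ∑ j, (n j / t) ^ 2 = 1
    simp only [div_pow]
    rw [← Finset.sum_div, ← add_div, ← hN, ht2, div_self hNpos.ne']
  · exact hμ
  · exact hb
  · exact hδ
  · have hv : (fun j => t * (n j / t)) = n := by
      funext j
      field_simp
    have h2 : t * (e / t) = e := by field_simp
    have h4 := hl0 t htpos (fun j => n j / t)
    show PX M ⟨WBm μ (F.B1 x), WBm μ (F.B2 x), F.A x, fun i => b * F.v x i, t * (e / t),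
      t ^ 2 * l (x, ![μ, e / t, c, s, b, δ], fun j => n j / t)⟩ c s
      (fun j => t * (n j / t)) = _
    rw [h2, h4, hv]

/-! ### local positivity -/

theorem PsiX_pos_0 (I : Ids) (M : Bool) {θ : Th X} (hcs : θ.2.1 2 ^ 2 + θ.2.1 3 ^ 2 = 1)
    (hn : nrm θ = 1) (hμ : θ.2.1 0 = 0) (h : θ.2.1 1 = 0) (hb : θ.2.1 4 = 0) :
    0 < PsiX F M θ := by
  cases M
  · exact PsiX_pos_P F I hcs hn hμ (Or.inl h)
  · exact PsiX_pos_M F I hn hμ ⟨hb, Or.inl h⟩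

omit [TopologicalSpace X] in
/-- for `e = l = 0` the twist and the quadratic term do not matter -/
theorem PS_e0 {W Wp A A' : Fin 3 → V ℝ} {v v' : Q4 ℝ} (g : Q4 ℝ) (α β Γ : V6 ℝ) :
    PS ⟨W, Wp, A, v, 0, 0⟩ g α β Γ = PS ⟨W, Wp, A', v', 0, 0⟩ g α β Γ := by
  have h0 : K0 (⟨W, Wp, A, v, 0, 0⟩ : Dat ℝ) g = K0 ⟨W, Wp, A', v', 0, 0⟩ g := by
    funext a
    simp only [K0, mul_zero, zero_smul]
    rfl
  have h1 : K1 (⟨W, Wp, A, v, 0, 0⟩ : Dat ℝ) g = K1 ⟨W, Wp, A', v', 0, 0⟩ g := by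
    funext w a
    simp only [K1, mul_zero, zero_smul]
    rfl
  have h2 : K2 (⟨W, Wp, A, v, 0, 0⟩ : Dat ℝ) g = K2 ⟨W, Wp, A', v', 0, 0⟩ g := by
    funext w u a
    simp only [K2, mul_zero, zero_smul]
    rfl
  rw [PS, PS, h0, h1, h2]

theorem loc0 (I : Ids) (M : Bool) [CompactSpace X] : ∃ ρ > 0, ∀ x μ, |μ| < ρ → ∀ c s : ℝ,
    c ^ 2 + s ^ 2 = 1 → ∀ n : Fin 14 → ℝ, (∀ j, |n j| < ρ) → n ≠ 0 →
    ∀ (A : Fin 3 → V ℝ) (v : Q4 ℝ),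
    0 < PX M ⟨WBm μ (F.B1 x), WBm μ (F.B2 x), A, v, 0, 0⟩ c s n := by
  have hK : IsCompact (KR X 0 ∩ {θ | θ.2.1 1 = 0}) :=
    (isCompact_KR le_rfl).inter_right (isClosed_eq (cont_p 1) continuous_const)
  obtain ⟨η, hη, h⟩ := tube hK (cont_p (X := X) 0).abs (cont_PsiX F M)
    (fun _ => abs_nonneg _)
    (fun θ hθ h0 => PsiX_pos_0 F I M hθ.1.1 hθ.1.2.1 (abs_eq_zero.1 h0) hθ.2
      (abs_eq_zero.1 (le_antisymm hθ.1.2.2.2.1 (abs_nonneg _))))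
  have hS : IsCompact ((KR X 0 ∩ {θ | θ.2.1 1 = 0}) ∩ {θ | |θ.2.1 0| ≤ η / 2}) :=
    hK.inter_right (isClosed_le (cont_p (X := X) 0).abs continuous_const)
  obtain ⟨t0, ht0, ht⟩ := main_transfer F I M hS (fun θ hθ => hθ.1.1.1) (l := fun _ => 0)
    continuous_const (fun θ hθ => by rw [hθ.1.2]; ring)
    (fun θ hθ => h θ hθ.1 (lt_of_le_of_lt hθ.2 (by linarith)))
  refine ⟨min (min (η / 2) 1) (t0 / 4), by positivity, fun x μ hμ c s hcs n hn hne A v => ?_⟩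
  have hρ : 0 < min (min (η / 2) 1) (t0 / 4) := by positivity
  have h1 : |μ| < η / 2 := hμ.trans_le ((min_le_left _ _).trans (min_le_left _ _))
  have h2 : |μ| < 1 := hμ.trans_le ((min_le_left _ _).trans (min_le_right _ _))
  obtain ⟨t, tp, tl, θ, hθ, e1, e2, e3⟩ := normalise F M x (fun _ => 0) 0
    (fun t _ m => mul_zero _) hcs h2.le (b := 0) (δ := 0) (R := 0) (by simp) (by simp)
    (e := 0) le_rfl hρ hn (Or.inr hne)
  have h3 : t < t0 := by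
    have := min_le_right (min (η / 2) 1) (t0 / 4)
    linarith
  have h4 := ht θ ⟨⟨hθ, by rw [Set.mem_ofPred_eq, e2]; simp⟩, by
    rw [Set.mem_ofPred_eq, e2]; exact h1.le⟩ t tp h3
  rw [e3, PX] at h4
  rw [PX]
  refine lt_of_lt_of_eq h4 ?_
  exact PS_e0 _ _ _ _

theorem loc1 (I : Ids) (M : Bool) [CompactSpace X] {b δ μ : ℝ} (hμ : 0 < μ) (hμ1 : μ ≤ 1)
    (h : ∀ θ : Th X, θ.2.1 2 ^ 2 + θ.2.1 3 ^ 2 = 1 → nrm θ = 1 → θ.2.1 0 = μ → θ.2.1 4 = b →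
      θ.2.1 5 = δ → 0 < PsiX F M θ) :
    ∃ ρ > 0, ∀ e, 0 < e → e < ρ → ∀ x, ∀ c s : ℝ, c ^ 2 + s ^ 2 = 1 → ∀ n : Fin 14 → ℝ,
    (∀ j, |n j| < ρ) →
    0 < PX M ⟨WBm μ (F.B1 x), WBm μ (F.B2 x), F.A x, fun i => b * F.v x i, e,
      δ * e ^ 2 / μ ^ 2⟩ c s n := by
  have hR : 0 ≤ |b| + |δ| := by positivity
  have hS : IsCompact (KR X (|b| + |δ|) ∩ ({θ | θ.2.1 0 = μ} ∩ ({θ | θ.2.1 4 = b} ∩
      {θ | θ.2.1 5 = δ}))) :=
    (isCompact_KR hR).inter_right ((isClosed_eq (cont_p 0) continuous_const).inter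
      ((isClosed_eq (cont_p 4) continuous_const).inter (isClosed_eq (cont_p 5) continuous_const)))
  obtain ⟨t0, ht0, ht⟩ := main_transfer F I M hS (fun θ hθ => hθ.1.1)
    (l := fun θ => δ * θ.2.1 1 ^ 2 / μ ^ 2) (by fun_prop)
    (fun θ hθ => by
      have a1 : θ.2.1 0 = μ := hθ.2.1
      have a2 : θ.2.1 5 = δ := hθ.2.2.2
      rw [a1, a2]
      field_simp)
    (fun θ hθ => h θ hθ.1.1 hθ.1.2.1 hθ.2.1 hθ.2.2.1 hθ.2.2.2)
  refine ⟨t0 / 4, by positivity, fun ε hε hε' x c s hcs n hn => ?_⟩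
  obtain ⟨t, tp, tl, θ, hθ, e1, e2, e3⟩ := normalise F M x
    (fun θ => δ * θ.2.1 1 ^ 2 / μ ^ 2) (δ * ε ^ 2 / μ ^ 2)
    (fun t tp m => by
      show t ^ 2 * (δ * (ε / t) ^ 2 / μ ^ 2) = _
      have := tp.ne'
      field_simp) hcs (by rw [abs_of_pos hμ]; exact hμ1) (b := b) (δ := δ) (R := |b| + |δ|)
    (by have := abs_nonneg δ; linarith) (by have := abs_nonneg b; linarith)
    hε.le hε' hn (Or.inl hε.ne')
  have h3 : t < t0 := by linarith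
  have h4 := ht θ ⟨hθ, by rw [Set.mem_ofPred_eq, e2]; rfl, by rw [Set.mem_ofPred_eq, e2]; rfl,
    by rw [Set.mem_ofPred_eq, e2]; rfl⟩ t tp h3
  rw [e3] at h4
  exact h4

/-- **LOC1P**: positivity near `Z₊` for small `e > 0`, `l = δ e²/μ²`. -/
theorem loc1P (I : Ids) [CompactSpace X] (b δ : ℝ)
    (hpos : ∀ x, 0 < b ^ 2 * (F.v x 2 ^ 2 + F.v x 3 ^ 2) +
      δ * x2b (F.B1 x) (F.B2 x) (F.A x) ![1, 0, 0] ![1, 0, 0]) :
    ∃ μ1 > 0, ∀ μ, 0 < μ → μ < μ1 → ∃ ρ > 0, ∀ e, 0 < e → e < ρ → ∀ x, ∀ c s : ℝ,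
    c ^ 2 + s ^ 2 = 1 → ∀ n : Fin 14 → ℝ, (∀ j, |n j| < ρ) →
    0 < PX false ⟨WBm μ (F.B1 x), WBm μ (F.B2 x), F.A x, fun i => b * F.v x i, e,
      δ * e ^ 2 / μ ^ 2⟩ c s n := by
  have hR : 0 ≤ |b| + |δ| := by positivity
  have hK : IsCompact (KR X (|b| + |δ|) ∩ ({θ | θ.2.1 4 = b} ∩ {θ | θ.2.1 5 = δ})) :=
    (isCompact_KR hR).inter_right
      ((isClosed_eq (cont_p 4) continuous_const).inter (isClosed_eq (cont_p 5) continuous_const))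
  obtain ⟨η, hη, h⟩ := tube hK (cont_p (X := X) 0).abs (cont_PsiX F false)
    (fun _ => abs_nonneg _)
    (fun θ hθ h0 => PsiX_pos_P F I hθ.1.1 hθ.1.2.1 (abs_eq_zero.1 h0) (Or.inr (by
      have a1 : θ.2.1 4 = b := hθ.2.1
      have a2 : θ.2.1 5 = δ := hθ.2.2
      rw [a1, a2]
      exact hpos θ.1)))
  refine ⟨min η 1, by positivity, fun μ h0 h1 => ?_⟩
  have hη1 : μ < η := h1.trans_le (min_le_left _ _)
  have hη2 : μ ≤ 1 := (h1.trans_le (min_le_right _ _)).le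
  refine loc1 F I false h0 hη2 (fun θ a1 a2 a3 a4 a5 => h θ ⟨⟨a1, a2, ?_, ?_, ?_⟩, a4, a5⟩ ?_)
  · rw [a3, abs_of_pos h0]; exact hη2
  · rw [a4]; have := abs_nonneg δ; linarith
  · rw [a5]; have := abs_nonneg b; linarith
  · rw [a3, abs_of_pos h0]; exact hη1

/-- **LOC1M**: positivity near `Z₋` for small `e > 0`, if `b` and `δ` are small. -/
theorem loc1M (I : Ids) [CompactSpace X] :
    ∃ η > 0, ∀ b δ μ, |b| < η → |δ| < η → 0 < μ → μ < η → ∃ ρ > 0, ∀ e, 0 < e → e < ρ → ∀ x,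
    ∀ n : Fin 14 → ℝ, (∀ j, |n j| < ρ) → ∀ c s : ℝ,
    0 < PX true ⟨WBm μ (F.B1 x), WBm μ (F.B2 x), F.A x, fun i => b * F.v x i, e,
      δ * e ^ 2 / μ ^ 2⟩ c s n := by
  have hφ : Continuous fun θ : Th X => |θ.2.1 0| + |θ.2.1 4| + |θ.2.1 5| :=
    ((cont_p 0).abs.add (cont_p 4).abs).add (cont_p 5).abs
  obtain ⟨η, hη, h⟩ := tube (isCompact_KR (X := X) zero_le_one) hφ (cont_PsiX F true)
    (fun θ => by positivity)
    (fun θ hθ h0 => by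
      have a0 := abs_nonneg (θ.2.1 0)
      have a4 := abs_nonneg (θ.2.1 4)
      have a5 := abs_nonneg (θ.2.1 5)
      refine PsiX_pos_M F I hθ.2.1 (abs_eq_zero.1 (by linarith))
        ⟨abs_eq_zero.1 (by linarith), Or.inr (abs_eq_zero.1 (by linarith))⟩)
  refine ⟨min (η / 3) 1, by positivity, fun b δ μ hb hδ h0 h1 => ?_⟩
  have b1 : |b| < η / 3 := hb.trans_le (min_le_left _ _)
  have b2 : |b| ≤ 1 := (hb.trans_le (min_le_right _ _)).le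
  have d1 : |δ| < η / 3 := hδ.trans_le (min_le_left _ _)
  have d2 : |δ| ≤ 1 := (hδ.trans_le (min_le_right _ _)).le
  have m1 : μ < η / 3 := h1.trans_le (min_le_left _ _)
  have m2 : μ ≤ 1 := (h1.trans_le (min_le_right _ _)).le
  obtain ⟨ρ, hρ, hh⟩ := loc1 F I true h0 m2 (b := b) (δ := δ) (fun θ a1 a2 a3 a4 a5 =>
    h θ ⟨a1, a2, by rw [a3, abs_of_pos h0]; exact m2, by rw [a4]; exact b2,
      by rw [a5]; exact d2⟩ (by rw [a3, a4, a5, abs_of_pos h0]; linarith))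
  exact ⟨ρ, hρ, fun ε e0 e1 x n hn c s => hh ε e0 e1 x 1 0 (by norm_num) n hn⟩

end fam

end HopfG.HS.CL
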